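import Mathlib

set_option autoImplicit false

/-!
Linear independence of products of consecutive linear factors.
-/

namespace Pool.Agent.Results.MP_441cc7_al.Independence

open Polynomial

/-- `P_i = ∏_{j=1}^{k-1} (x - t_{i+j})` -/
noncomputable def P (k : ℕ) (t : ℕ → ℝ) (i : ℕ) : ℝ[X] :=
  ∏ j ∈ Finset.Icc 1 (k - 1), (X - C (t (i + j)))

/-- the products of `m` consecutive factors -/
noncomputable def Q (t : ℕ → ℝ) (m i : ℕ) : ℝ[X] :=
  ∏ j ∈ Finset.range m, (X - C (t (i + j + 1)))

/-- the sequence `c` has `r` weak sign changes -/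
def WA (c : ℕ → ℝ) (r : ℕ) : Prop :=
  ∃ (j : ℕ → ℕ) (ε : ℝ), (ε = 1 ∨ ε = -1) ∧ (∀ l, l < r → j l < j (l + 1)) ∧
    (∀ l, l ≤ r → 0 ≤ ε * (-1) ^ l * c (j l))

theorem exists_step (c : ℕ → ℝ) (s : ℝ) (a b : ℕ) (hab : a < b) (ha : 0 ≤ s * c a)
    (hb : s * c b ≤ 0) : ∃ i, a ≤ i ∧ i < b ∧ s * (c (i + 1) - c i) ≤ 0 := by
  by_contra h
  push Not at h
  have key : ∀ n, a + n + 1 ≤ b → 0 < s * c (a + n + 1) := by
    intro n
    induction n with
    | zero =>
      intro h1
      have := h a le_rfl (by omega)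
      rw [add_zero]
      nlinarith
    | succ n ih =>
      intro h1
      have h2 := ih (by omega)
      have h3 := h (a + n + 1) (by omega) (by omega)
      rw [show a + (n + 1) + 1 = a + n + 1 + 1 by ring]
      nlinarith
  have h1 := key (b - a - 1) (by omega)
  rw [show a + (b - a - 1) + 1 = b by omega] at h1
  linarith

theorem WA_step (c d p : ℕ → ℝ) (hp : ∀ i, 0 < p i) (hcd : ∀ i, c (i + 1) - c i = -p i * d (i + 1))
    (r : ℕ) (h : WA c (r + 1)) : WA d r := by
  obtain ⟨j, ε, hε, hj, hc⟩ := h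
  have h1 : ∀ l, l ≤ r → ∃ i, j l ≤ i ∧ i < j (l + 1) ∧ 0 ≤ ε * (-1) ^ l * d (i + 1) := by
    intro l hl
    have h2 := hc l (by omega)
    have h3 := hc (l + 1) (by omega)
    rw [pow_succ] at h3
    obtain ⟨i, hi1, hi2, hi3⟩ := exists_step c (ε * (-1) ^ l) (j l) (j (l + 1))
      (hj l (by omega)) h2 (by linarith)
    refine ⟨i, hi1, hi2, ?_⟩
    rw [hcd] at hi3
    have h4 := hp i
    by_contra h5
    push Not at h5
    have h6 : 0 < p i * (-(ε * (-1) ^ l * d (i + 1))) := mul_pos h4 (by linarith)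
    nlinarith
  choose! i hi1 hi2 hi3 using h1
  refine ⟨fun l => i l + 1, ε, hε, ?_, ?_⟩
  · intro l hl
    have h2 := hi2 l (by omega)
    have h3 := hi1 (l + 1) (by omega)
    change i l + 1 < i (l + 1) + 1
    omega
  · intro l hl
    exact hi3 l hl

theorem WA_const (a : ℝ) (r : ℕ) (h : WA (fun _ => a) (r + 1)) : a = 0 := by
  obtain ⟨j, ε, hε, -, hc⟩ := h
  have h1 := hc 0 (by omega)
  have h2 := hc 1 (by omega)
  simp only [pow_zero, mul_one, pow_one, mul_neg, neg_mul] at h1 h2
  rcases hε with rfl | rfl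
  · linarith
  · linarith

theorem Q_diff (t : ℕ → ℝ) (m i : ℕ) :
    Q t (m + 1) (i + 1) - Q t (m + 1) i =
      C (-(t (i + 1 + m + 1) - t (i + 1))) * Q t m (i + 1) := by
  have h1 : Q t (m + 1) (i + 1) = Q t m (i + 1) * (X - C (t (i + 1 + m + 1))) := by
    rw [Q, Finset.prod_range_succ]; rfl
  have h2 : Q t (m + 1) i = Q t m (i + 1) * (X - C (t (i + 1))) := by
    rw [Q, Finset.prod_range_succ']
    congr 1
    refine Finset.prod_congr rfl fun j _ => ?_
    rw [show i + (j + 1) + 1 = i + 1 + j + 1 by ring]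
  rw [h1, h2, ← mul_sub, sub_sub_sub_cancel_left, ← C_sub, mul_comm]
  congr 2
  ring

theorem natDegree_Q (t : ℕ → ℝ) (m i : ℕ) : (Q t m i).natDegree = m := by
  rw [Q, natDegree_prod_of_monic _ _ (fun j _ => monic_X_sub_C _)]
  simp

theorem monic_Q (t : ℕ → ℝ) (m i : ℕ) : (Q t m i).Monic :=
  monic_prod_of_monic _ _ (fun _ _ => monic_X_sub_C _)

theorem key (t : ℕ → ℝ) (ht : ∀ n, 1 ≤ n → t n < t (n + 1)) (L : ℝ[X] →ₗ[ℝ] ℝ) (m : ℕ)
    (h : WA (fun i => L (Q t m i)) (m + 1)) : ∀ j, j ≤ m → L (X ^ j) = 0 := by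
  have hmono : ∀ a b, 1 ≤ a → a < b → t a < t b := by
    intro a b ha hab
    induction b, hab using Nat.le_induction with
    | base => exact ht a ha
    | succ b hb ih => exact ih.trans (ht b (by omega))
  induction m with
  | zero =>
    intro j hj
    obtain rfl : j = 0 := by omega
    have h1 : (fun i => L (Q t 0 i)) = fun _ => L (X ^ 0) := by
      funext i
      rw [Q, Finset.range_zero, Finset.prod_empty, pow_zero]
    rw [h1] at h
    exact WA_const _ _ h
  | succ m ih =>
    have h1 : WA (fun i => L (Q t m i)) (m + 1) := by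
      refine WA_step (fun i => L (Q t (m + 1) i)) _ (fun i => t (i + 1 + m + 1) - t (i + 1))
        (fun i => sub_pos.2 (hmono _ _ (by omega) (by omega))) ?_ (m + 1) h
      intro i
      rw [← map_sub, Q_diff, ← smul_eq_C_mul, map_smul, smul_eq_mul]
    have h2 := ih h1
    -- the functional vanishes on the polynomials of degree at most `m`
    have h3 : ∀ f : ℝ[X], f.natDegree ≤ m → L f = 0 := by
      intro f hf
      rw [f.as_sum_range' (m + 1) (by omega), map_sum]
      refine Finset.sum_eq_zero fun j hj => ?_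
      rw [Finset.mem_range] at hj
      rw [← C_mul_X_pow_eq_monomial, ← smul_eq_C_mul, map_smul, h2 j (by omega), smul_zero]
    have h4 : (fun i => L (Q t (m + 1) i)) = fun _ => L (X ^ (m + 1)) := by
      funext i
      rw [← sub_eq_zero, ← map_sub]
      apply h3
      have h5 : (Q t (m + 1) i - X ^ (m + 1)).degree < (Q t (m + 1) i).degree := by
        apply degree_sub_lt_left
        · rw [degree_X_pow, degree_eq_natDegree (monic_Q t (m + 1) i).ne_zero, natDegree_Q]
        · exact (monic_Q t (m + 1) i).ne_zero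
        · rw [(monic_Q t (m + 1) i).leadingCoeff, leadingCoeff_X_pow]
      by_cases h6 : Q t (m + 1) i - X ^ (m + 1) = 0
      · rw [h6, natDegree_zero]; omega
      · have h7 := natDegree_lt_natDegree h6 h5
        rw [natDegree_Q] at h7
        omega
    intro j hj
    rcases Nat.lt_or_ge j (m + 1) with hj' | hj'
    · exact h2 j (by omega)
    · obtain rfl : j = m + 1 := by omega
      rw [h4] at h
      exact WA_const _ _ h

theorem P_eq_Q (k : ℕ) (t : ℕ → ℝ) (i : ℕ) : P k t i = Q t (k - 1) i := by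
  have h1 := Finset.prod_Ico_add' (fun x => X - C (t (i + x))) 0 (k - 1) 1
  have h2 : Finset.Icc 1 (k - 1) = Finset.Ico (0 + 1) (k - 1 + 1) := by
    ext x
    simp only [Finset.mem_Icc, Finset.mem_Ico]
    omega
  rw [P, Q, h2, ← h1, Finset.range_eq_Ico]
  refine Finset.prod_congr rfl fun x _ => ?_
  rw [add_assoc]

/-- For every `k ≥ 2` (indeed `k ≥ 1`), every strictly increasing sequence `t_1 < t_2 < ⋯` and all
`0 ≤ i_1 < ⋯ < i_k` the polynomials `P_{i_1}, …, P_{i_k}` are linearly independent. -/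
theorem result (k : ℕ) (hk : 1 ≤ k) (t : ℕ → ℝ) (ht : ∀ n, 1 ≤ n → t n < t (n + 1))
    (i : Fin k → ℕ) (hi : StrictMono i) : LinearIndependent ℝ (fun l => P k t (i l)) := by
  -- the polynomials as elements of the space of the polynomials of degree `< k`
  have hdeg : ∀ l, P k t (i l) ∈ degreeLT ℝ k := by
    intro l
    rw [mem_degreeLT, P_eq_Q, degree_eq_natDegree (monic_Q t (k - 1) (i l)).ne_zero, natDegree_Q]
    exact_mod_cast (by omega : k - 1 < k)
  let v : Fin k → degreeLT ℝ k := fun l => ⟨P k t (i l), hdeg l⟩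
  have hfin : Module.finrank ℝ (degreeLT ℝ k) = k := by
    rw [(degreeLTEquiv ℝ k).finrank_eq, Module.finrank_fin_fun]
  have : Module.Finite ℝ (degreeLT ℝ k) := Module.Finite.equiv (degreeLTEquiv ℝ k).symm
  have hspan : ⊤ ≤ Submodule.span ℝ (Set.range v) := by
    by_contra hne
    have hlt : Submodule.span ℝ (Set.range v) < ⊤ := lt_top_iff_ne_top.2 (fun h => hne h.ge)
    obtain ⟨f, hf0, hf⟩ := Submodule.exists_le_ker_of_lt_top _ hlt
    obtain ⟨L, hL⟩ := LinearMap.exists_extend f
    have hLv : ∀ x : degreeLT ℝ k, L x = f x := fun x => by rw [← hL]; rfl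
    apply hf0
    -- weak sign changes
    have hWA : WA (fun n => L (Q t (k - 1) n)) (k - 1 + 1) := by
      have hz : ∀ l : Fin k, L (Q t (k - 1) (i l)) = 0 := by
        intro l
        rw [← P_eq_Q]
        have h1 := hLv (v l)
        rw [show ((v l : degreeLT ℝ k) : ℝ[X]) = P k t (i l) from rfl] at h1
        rw [h1]
        exact LinearMap.mem_ker.1 (hf (Submodule.subset_span ⟨l, rfl⟩))
      -- the last index
      let last : ℕ := i ⟨k - 1, by omega⟩ + 1
      obtain ⟨ε, hε, hε'⟩ : ∃ ε : ℝ, (ε = 1 ∨ ε = -1) ∧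
          0 ≤ ε * (-1) ^ k * L (Q t (k - 1) last) := by
        rcases le_total 0 ((-1) ^ k * L (Q t (k - 1) last)) with h | h
        · exact ⟨1, Or.inl rfl, by rw [one_mul]; exact h⟩
        · exact ⟨-1, Or.inr rfl, by rw [mul_assoc]; linarith⟩
      refine ⟨fun l => if h : l < k then i ⟨l, h⟩ else last, ε, hε, ?_, ?_⟩
      · intro l hl
        have h1 : l < k := by omega
        by_cases h2 : l + 1 < k
        · simp only [h1, h2, dite_true]
          apply hi
          rw [Fin.mk_lt_mk]
          omega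
        · simp only [h1, h2, dite_true, dite_false]
          have h3 : l = k - 1 := by omega
          subst h3
          exact Nat.lt_succ_self _
      · intro l hl
        by_cases h1 : l < k
        · simp only [h1, dite_true]
          rw [hz, mul_zero]
        · simp only [h1, dite_false]
          have h3 : l = k := by omega
          rw [h3]
          exact hε'
    have h0 := key t ht L (k - 1) hWA
    ext x
    rw [LinearMap.zero_apply, ← hLv]
    have hx : (x : ℝ[X]).natDegree ≤ k - 1 := by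
      have := x.2
      rw [mem_degreeLT] at this
      rcases eq_or_ne (x : ℝ[X]) 0 with hx0 | hx0
      · rw [hx0, natDegree_zero]; omega
      · rw [degree_eq_natDegree hx0] at this
        have : (x : ℝ[X]).natDegree < k := by exact_mod_cast this
        omega
    rw [(x : ℝ[X]).as_sum_range' (k - 1 + 1) (by omega), map_sum]
    refine Finset.sum_eq_zero fun j hj => ?_
    rw [Finset.mem_range] at hj
    rw [← C_mul_X_pow_eq_monomial, ← smul_eq_C_mul, map_smul, h0 j (by omega), smul_zero]
  have hli : LinearIndependent ℝ v :=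
    linearIndependent_of_top_le_span_of_card_eq_finrank hspan (by rw [hfin, Fintype.card_fin])
  exact hli.map' (degreeLT ℝ k).subtype (Submodule.ker_subtype _)

end Pool.Agent.Results.MP_441cc7_al.Independence
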